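import Pool.Agent.Work.MP_bf6e36_co.PHSas

/-! # The sharp constant for bodies with a large quadrilateral -/

set_option autoImplicit false

namespace Pool.Agent.Work.MP_bf6e36_co.PH

open MeasureTheory Set
open scoped Pointwise

lemma num1 : (3 * Real.sqrt 3 / (2 * Real.pi)) * BB (9/100) (658/1000) ≤
    1 + (1 - 9/100 - 658/1000) * (1453/1000) := by
  have h1 : Real.sqrt 3 ≤ 1.7321 := by
    rw [show (1.7321 : ℝ) = Real.sqrt (1.7321 ^ 2) by rw [Real.sqrt_sq (by norm_num)]]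
    apply Real.sqrt_le_sqrt
    norm_num
  have h2 : (3.14159 : ℝ) < Real.pi := by
    have := Real.pi_gt_d6
    linarith
  have h3 : BB (9/100) (658/1000) ≤ 1.65188 := by
    unfold BB
    norm_num
  have h3' : 0 ≤ BB (9/100) (658/1000) := by
    unfold BB
    norm_num
  have h4 : 3 * Real.sqrt 3 / (2 * Real.pi) ≤ 0.82702 := by
    rw [div_le_iff₀ (by linarith)]
    nlinarith
  calc (3 * Real.sqrt 3 / (2 * Real.pi)) * BB (9/100) (658/1000)
      ≤ 0.82702 * 1.65188 := by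
        apply mul_le_mul h4 h3 h3' (by norm_num)
    _ ≤ _ := by norm_num

lemma BB_pos : 0 < BB (9/100) (658/1000) := by
  unfold BB
  norm_num

/-- The conclusion for bodies with a large quadrilateral. -/
theorem cor_quad {K : Set (ℝ × ℝ)} {X : ℝ}
    (H : ∃ v : Fin 6 → ℝ × ℝ, IsPHex v ∧ (∀ i, v i ∈ K) ∧
      volume.real K + (1 - 9/100 - 658/1000) * X ≤
        BB (9/100) (658/1000) * volume.real (convexHull ℝ (Set.range v)))
    (hX : 1453/1000 * volume.real K ≤ X) :
    ∃ v : Fin 6 → ℝ × ℝ, IsPHex v ∧ (∀ i, v i ∈ K) ∧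
      3 * Real.sqrt 3 / (2 * Real.pi) * volume.real K ≤
        volume.real (convexHull ℝ (Set.range v)) := by
  obtain ⟨v, hv, hvK, hvol⟩ := H
  refine ⟨v, hv, hvK, ?_⟩
  have hK : 0 ≤ volume.real K := measureReal_nonneg
  have h1 : (3 * Real.sqrt 3 / (2 * Real.pi) * volume.real K) * BB (9/100) (658/1000) ≤
      BB (9/100) (658/1000) * volume.real (convexHull ℝ (Set.range v)) := by
    calc (3 * Real.sqrt 3 / (2 * Real.pi) * volume.real K) * BB (9/100) (658/1000)
        = ((3 * Real.sqrt 3 / (2 * Real.pi)) * BB (9/100) (658/1000)) * volume.real K := by ring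
      _ ≤ (1 + (1 - 9/100 - 658/1000) * (1453/1000)) * volume.real K :=
          mul_le_mul_of_nonneg_right num1 hK
      _ = volume.real K + (1 - 9/100 - 658/1000) * (1453/1000 * volume.real K) := by ring
      _ ≤ volume.real K + (1 - 9/100 - 658/1000) * X := by linarith
      _ ≤ _ := hvol
  have h2 := BB_pos
  rw [mul_comm (BB (9/100) (658/1000))] at h1
  exact le_of_mul_le_mul_right h1 h2

/-- Degenerate bodies. -/
lemma cor_zero {K : Set (ℝ × ℝ)} (hne : K.Nonempty) (h0 : volume.real K = 0) :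
    ∃ v : Fin 6 → ℝ × ℝ, IsPHex v ∧ (∀ i, v i ∈ K) ∧
      3 * Real.sqrt 3 / (2 * Real.pi) * volume.real K ≤
        volume.real (convexHull ℝ (Set.range v)) := by
  obtain ⟨z, hz⟩ := hne
  refine ⟨fun _ => z, ⟨?_, ?_⟩, fun _ => hz, ?_⟩
  · intro i j k _ _
    simp [cr]
  · simp
  · rw [h0]
    simp

/-- From the difference body to a quadruple. -/
theorem diff_quad {K : Set (ℝ × ℝ)} (hK : IsCompact K) (hc : Convex ℝ K) (hne : K.Nonempty) :
    ∃ a ∈ K, ∃ b ∈ K, ∃ c ∈ K, ∃ d ∈ K,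
      volume.real (K - K) ≤ Real.pi * cr (b - a) (d - c) := by
  have hD : IsCompact (K - K) := by
    rw [sub_eq_add_neg]
    exact hK.add hK.neg
  have hDc : Convex ℝ (K - K) := hc.sub hc
  have hDn : (K - K).Nonempty := hne.sub hne
  obtain ⟨p, ⟨b, hb, a, ha, hp⟩, q, ⟨d, hd, c, hc', hq⟩, h⟩ := sas hD hDc hDn (by
    rintro _ ⟨x, hx, y, hy, rfl⟩
    exact ⟨y, hy, x, hx, by simp⟩)
  refine ⟨a, ha, b, hb, c, hc', d, hd, ?_⟩
  have h1 : p = b - a := hp.symm
  have h2 : q = d - c := hq.symm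
  rw [← h1, ← h2]
  exact h

end Pool.Agent.Work.MP_bf6e36_co.PH
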