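import Pool.Agent.Work.MP_bf6e36_co.PHDefs

/-! # Normalisation: from one direction to an arbitrary quadruple of points -/

set_option autoImplicit false

namespace Pool.Agent.Work.MP_bf6e36_co.PH

open MeasureTheory Set

/-- the linear map `z ↦ ((p . z) / |p|^2, cr p z)` -/
noncomputable def LM (p : ℝ × ℝ) : (ℝ × ℝ) →ₗ[ℝ] (ℝ × ℝ) where
  toFun z := ((p.1 * z.1 + p.2 * z.2) / (p.1 ^ 2 + p.2 ^ 2), cr p z)
  map_add' z w := by
    ext
    · simp only [Prod.fst_add, Prod.snd_add]; ring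
    · simp only [cr, Prod.fst_add, Prod.snd_add]; ring
  map_smul' t z := by
    ext
    · simp only [Prod.smul_fst, Prod.smul_snd, smul_eq_mul, RingHom.id_apply]; ring
    · simp only [cr, Prod.smul_fst, Prod.smul_snd, smul_eq_mul, RingHom.id_apply]; ring

lemma LM_fst (p z : ℝ × ℝ) : (LM p z).1 = (p.1 * z.1 + p.2 * z.2) / (p.1 ^ 2 + p.2 ^ 2) := rfl

lemma LM_snd (p z : ℝ × ℝ) : (LM p z).2 = cr p z := rfl

lemma cr_LM {p : ℝ × ℝ} (hp : p.1 ^ 2 + p.2 ^ 2 ≠ 0) (u w : ℝ × ℝ) :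
    cr (LM p u) (LM p w) = cr u w := by
  simp only [cr, LM_fst, LM_snd]
  field_simp
  ring

lemma LM_self {p : ℝ × ℝ} (hp : p.1 ^ 2 + p.2 ^ 2 ≠ 0) : LM p p = (1, 0) := by
  ext
  · rw [LM_fst]
    show _ = (1 : ℝ)
    field_simp
  · rw [LM_snd]
    show _ = (0 : ℝ)
    unfold cr
    ring

lemma LM_inj {p : ℝ × ℝ} (hp : p.1 ^ 2 + p.2 ^ 2 ≠ 0) {u w : ℝ × ℝ} (h : LM p u = LM p w) :
    u = w := by
  have h1 : (LM p u).1 = (LM p w).1 := by rw [h]
  have h2 : (LM p u).2 = (LM p w).2 := by rw [h]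
  rw [LM_fst, LM_fst] at h1
  rw [LM_snd, LM_snd] at h2
  unfold cr at h2
  have h3 : p.1 * u.1 + p.2 * u.2 = p.1 * w.1 + p.2 * w.2 := by
    field_simp at h1
    linarith
  ext
  · have : (p.1 ^ 2 + p.2 ^ 2) * (u.1 - w.1) = 0 := by
      linear_combination p.1 * h3 - p.2 * h2
    rcases mul_eq_zero.mp this with h | h
    · exact absurd h hp
    · linarith
  · have : (p.1 ^ 2 + p.2 ^ 2) * (u.2 - w.2) = 0 := by
      linear_combination p.2 * h3 + p.1 * h2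
    rcases mul_eq_zero.mp this with h | h
    · exact absurd h hp
    · linarith

lemma det_LM {p : ℝ × ℝ} (hp : p.1 ^ 2 + p.2 ^ 2 ≠ 0) : LinearMap.det (LM p) = 1 := by
  rw [← LinearMap.det_toMatrix (Module.Basis.finTwoProd ℝ), Matrix.det_fin_two]
  simp only [LinearMap.toMatrix_apply, Module.Basis.finTwoProd_zero, Module.Basis.finTwoProd_one,
    Module.Basis.coe_finTwoProd_repr, Matrix.cons_val_zero, Matrix.cons_val_one, LM_fst, LM_snd, cr]
  field_simp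
  ring

lemma vol_LM {p : ℝ × ℝ} (hp : p.1 ^ 2 + p.2 ^ 2 ≠ 0) (S : Set (ℝ × ℝ)) :
    volume.real (LM p '' S) = volume.real S := by
  rw [Measure.real, Measure.addHaar_image_linearMap, det_LM hp]
  simp [Measure.real]

lemma cont_LM (p : ℝ × ℝ) : Continuous (LM p) := LinearMap.continuous_of_finiteDimensional _

theorem main_quad_of {k1 k2 : ℝ} (h3 : k1 + k2 ≤ 1)
    (H : ∀ {K : Set (ℝ × ℝ)}, IsCompact K → Convex ℝ K → ∀ {X : ℝ}, 0 < X → ∀ {a c d : ℝ × ℝ},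
      a ∈ K → a + (1, 0) ∈ K → c ∈ K → d ∈ K →
      (∀ z ∈ K, ∀ w ∈ K, w.2 = z.2 → w.1 - z.1 ≤ 1) → d.2 = c.2 + X →
      (∀ z ∈ K, c.2 ≤ z.2 ∧ z.2 ≤ d.2) →
      ∃ v : Fin 6 → ℝ × ℝ, IsPHex v ∧ (∀ i, v i ∈ K) ∧
        volume.real K + (1 - k1 - k2) * X ≤ BB k1 k2 * volume.real (convexHull ℝ (Set.range v)))
    {K : Set (ℝ × ℝ)} (hK : IsCompact K) (hc : Convex ℝ K) {a b c d : ℝ × ℝ}
    (ha : a ∈ K) (hb : b ∈ K) (hc' : c ∈ K) (hd : d ∈ K) (hX : 0 < cr (b - a) (d - c)) :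
    ∃ v : Fin 6 → ℝ × ℝ, IsPHex v ∧ (∀ i, v i ∈ K) ∧
      volume.real K + (1 - k1 - k2) * cr (b - a) (d - c) ≤
        BB k1 k2 * volume.real (convexHull ℝ (Set.range v)) := by
  classical
  -- maximal quadruple
  have hcont : Continuous (fun z : ((ℝ × ℝ) × (ℝ × ℝ)) × ((ℝ × ℝ) × (ℝ × ℝ)) =>
      cr (z.1.2 - z.1.1) (z.2.2 - z.2.1)) := by
    unfold cr
    fun_prop
  obtain ⟨⟨⟨a0, b0⟩, ⟨c0, d0⟩⟩, hmem, hmax⟩ :=
    ((hK.prod hK).prod (hK.prod hK)).exists_isMaxOn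
      ⟨((a, b), (c, d)), ⟨⟨ha, hb⟩, ⟨hc', hd⟩⟩⟩ hcont.continuousOn
  obtain ⟨⟨ha0, hb0⟩, ⟨hc0, hd0⟩⟩ := hmem
  simp only at ha0 hb0 hc0 hd0
  have hM : ∀ a' ∈ K, ∀ b' ∈ K, ∀ c' ∈ K, ∀ d' ∈ K,
      cr (b' - a') (d' - c') ≤ cr (b0 - a0) (d0 - c0) := fun a' h1 b' h2 c' h3 d' h4 =>
    hmax (show ((a', b'), (c', d')) ∈ (K ×ˢ K) ×ˢ (K ×ˢ K) from ⟨⟨h1, h2⟩, ⟨h3, h4⟩⟩)
  set X := cr (b0 - a0) (d0 - c0) with hXdef
  have hX0 : cr (b - a) (d - c) ≤ X := hM a ha b hb c hc' d hd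
  have hXpos : 0 < X := lt_of_lt_of_le hX hX0
  set p := b0 - a0 with hpdef
  have hp : p.1 ^ 2 + p.2 ^ 2 ≠ 0 := by
    intro h
    have h1 : p.1 = 0 := by nlinarith [sq_nonneg p.1, sq_nonneg p.2]
    have h2 : p.2 = 0 := by nlinarith [sq_nonneg p.1, sq_nonneg p.2]
    rw [hXdef] at hXpos
    unfold cr at hXpos
    rw [h1, h2] at hXpos
    simp at hXpos
  have hcrsub : ∀ u w : ℝ × ℝ, cr p (u - w) = cr p u - cr p w := by
    intro u w
    simp only [cr, Prod.fst_sub, Prod.snd_sub]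
    ring
  obtain ⟨v', hv', hvK, hvol⟩ := H (K := LM p '' K) (hK.image (cont_LM p))
    (hc.linear_image (LM p)) hXpos (a := LM p a0) (c := LM p c0) (d := LM p d0)
    (mem_image_of_mem _ ha0)
    (by
      have : LM p a0 + (1, 0) = LM p b0 := by
        rw [← LM_self hp, ← map_add]
        congr 1
        rw [hpdef]
        abel
      rw [this]
      exact mem_image_of_mem _ hb0)
    (mem_image_of_mem _ hc0) (mem_image_of_mem _ hd0)
    (by
      rintro _ ⟨z, hz, rfl⟩ _ ⟨w, hw, rfl⟩ hzw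
      rw [LM_snd, LM_snd] at hzw
      set s := (LM p w).1 - (LM p z).1 with hs
      have hwz : w - z = s • p := by
        apply LM_inj hp
        rw [map_sub, map_smul, LM_self hp]
        ext
        · simp [hs]
        · simp only [Prod.snd_sub, LM_snd, Prod.smul_snd, smul_eq_mul, mul_zero]
          linarith
      have h1 := hM z hz w hw c0 hc0 d0 hd0
      rw [hwz] at h1
      have h2 : cr (s • p) (d0 - c0) = s * X := by
        rw [hXdef]
        simp only [cr, Prod.smul_fst, Prod.smul_snd, smul_eq_mul]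
        ring
      rw [h2] at h1
      by_contra hcon
      push Not at hcon
      nlinarith)
    (by
      rw [LM_snd, LM_snd, hXdef, hcrsub]
      ring)
    (by
      rintro _ ⟨z, hz, rfl⟩
      simp only [LM_snd]
      have h1 := hM a0 ha0 b0 hb0 z hz d0 hd0
      have h2 := hM a0 ha0 b0 hb0 c0 hc0 z hz
      rw [← hpdef, hXdef, hcrsub, hcrsub] at h1
      rw [← hpdef, hXdef, hcrsub, hcrsub] at h2
      exact ⟨by linarith, by linarith⟩)
  choose v hv hvv using hvK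
  refine ⟨v, ⟨?_, ?_⟩, hv, ?_⟩
  · intro i j k hij hjk
    have h1 := hv'.1 i j k hij hjk
    rw [← hvv i, ← hvv j, ← hvv k, ← map_sub, ← map_sub, cr_LM hp] at h1
    exact h1
  · apply LM_inj hp
    rw [map_sub, map_sub, hvv, hvv, hvv, hvv]
    exact hv'.2
  · have hr : Set.range v' = LM p '' Set.range v := by
      rw [← range_comp]
      congr 1
      funext i
      exact (hvv i).symm
    rw [hr, ← LinearMap.image_convexHull, vol_LM hp, vol_LM hp] at hvol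
    have : (1 - k1 - k2) * cr (b - a) (d - c) ≤ (1 - k1 - k2) * X :=
      mul_le_mul_of_nonneg_left hX0 (by linarith)
    linarith

end Pool.Agent.Work.MP_bf6e36_co.PH
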