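import Mathlib

/-! # p-hexagons: definitions -/

set_option autoImplicit false

namespace Pool.Agent.Work.MP_bf6e36_co.PH

/-- the cross product -/
def cr (u v : ℝ × ℝ) : ℝ := u.1 * v.2 - u.2 * v.1

/-- `v 0, …, v 5` are, in counterclockwise order, the vertices of a convex hexagon (which may be
degenerate) whose opposite sides `v 0 v 1` and `v 4 v 3` are parallel and of equal length. -/
def IsPHex (v : Fin 6 → ℝ × ℝ) : Prop :=
  (∀ i j k, i < j → j < k → 0 ≤ cr (v j - v i) (v k - v i)) ∧ v 1 - v 0 = v 3 - v 4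

/-- the denominator -/
noncomputable def BB (k₁ k₂ : ℝ) : ℝ := 4 * (k₂ - k₁) / (2 + k₁ + k₂) + 4 * (1 - k₂) / (1 + k₂)

end Pool.Agent.Work.MP_bf6e36_co.PH
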