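import Pool.Agent.Work.MP_bf6e36_co.PHHex

/-! # One direction -/

set_option autoImplicit false

namespace Pool.Agent.Work.MP_bf6e36_co.PH

open MeasureTheory Set

/-- the horizontal chords of `K`: pairs (length, height) -/
def chs (K : Set (ℝ × ℝ)) : Set (ℝ × ℝ) := {q | 0 ≤ q.1 ∧ ∃ x, (x, q.2) ∈ K ∧ (x + q.1, q.2) ∈ K}

theorem isCompact_chs {K : Set (ℝ × ℝ)} (hK : IsCompact K) : IsCompact (chs K) := by
  have h1 : chs K = (fun p : (ℝ × ℝ) × (ℝ × ℝ) => ((p.2.1 - p.1.1, p.1.2) : ℝ × ℝ)) ''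
      ((K ×ˢ K) ∩ {p | p.1.2 = p.2.2 ∧ p.1.1 ≤ p.2.1}) := by
    ext ⟨r, y⟩
    constructor
    · rintro ⟨hr, x, hx1, hx2⟩
      refine ⟨((x, y), (x + r, y)), ⟨⟨hx1, hx2⟩, rfl, ?_⟩, ?_⟩
      · change x ≤ x + r
        have : 0 ≤ r := hr
        linarith
      · change (x + r - x, y) = (r, y)
        rw [add_sub_cancel_left]
    · rintro ⟨⟨⟨x, y1⟩, ⟨x', y2⟩⟩, ⟨⟨hz1, hz2⟩, h1, h2⟩, h3⟩
      simp only [Prod.mk.injEq] at h3
      obtain ⟨h3, h4⟩ := h3
      have h1' : y1 = y2 := h1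
      have h2' : x ≤ x' := h2
      subst h4
      subst h1'
      refine ⟨?_, x, hz1, ?_⟩
      · change 0 ≤ r
        linarith
      · change (x + r, y1) ∈ K
        have : x + r = x' := by linarith
        rw [this]
        exact hz2
  rw [h1]
  refine IsCompact.image ((hK.prod hK).inter_right ?_) (by fun_prop)
  exact (isClosed_eq (f := fun p : (ℝ × ℝ) × (ℝ × ℝ) => p.1.2) (g := fun p => p.2.2)
    (by fun_prop) (by fun_prop)).inter
    (isClosed_le (f := fun p : (ℝ × ℝ) × (ℝ × ℝ) => p.1.1) (g := fun p => p.2.1)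
      (by fun_prop) (by fun_prop))

theorem convex_chs {K : Set (ℝ × ℝ)} (hc : Convex ℝ K) : Convex ℝ (chs K) := by
  rintro ⟨r, y⟩ ⟨hr, x, hx1, hx2⟩ ⟨r', y'⟩ ⟨hr', x', hx1', hx2'⟩ a b ha hb hab
  refine ⟨?_, a * x + b * x', ?_, ?_⟩
  · simp only [Prod.smul_mk, Prod.mk_add_mk, smul_eq_mul]
    have h1 : 0 ≤ a * r := mul_nonneg ha hr
    have h2 : 0 ≤ b * r' := mul_nonneg hb hr'
    linarith
  · have := hc hx1 hx1' ha hb hab
    simpa only [Prod.smul_mk, Prod.mk_add_mk, smul_eq_mul] using this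
  · have := hc hx2 hx2' ha hb hab
    simp only [Prod.smul_mk, Prod.mk_add_mk, smul_eq_mul] at this ⊢
    have e : a * x + b * x' + (a * r + b * r') = a * (x + r) + b * (x' + r') := by ring
    rw [e]
    exact this

/-- the set of chords has the area of `K` -/
theorem real_chs {K : Set (ℝ × ℝ)} (hK : IsCompact K) (hc : Convex ℝ K) {s t : ℝ} (hst : s ≤ t)
    (h : ∀ z ∈ K, z.2 ∈ Icc s t) : volume.real (chs K) = volume.real K := by
  have h1 : ∀ z ∈ chs K, z.2 ∈ Icc s t := by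
    rintro ⟨r, y⟩ ⟨-, x, hx, -⟩
    exact h (x, y) hx
  rw [← real_swp (isCompact_chs hK), ← real_swp hK,
    real_eq_integral (isCompact_swp (isCompact_chs hK)) hst (fun z hz => h1 _ hz),
    real_eq_integral (isCompact_swp hK) hst (fun z hz => h _ hz)]
  congr 1
  funext y
  by_cases hne : (sl (swp K) y).Nonempty
  · obtain ⟨a, b, hab, h2⟩ := sl_eq_Icc (isCompact_swp hK) (convex_swp hc) hne
    have ha : (a, y) ∈ K := by
      have : a ∈ sl (swp K) y := h2 ▸ left_mem_Icc.2 hab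
      exact this
    have hb : (b, y) ∈ K := by
      have : b ∈ sl (swp K) y := h2 ▸ right_mem_Icc.2 hab
      exact this
    have hmem : ∀ x, (x, y) ∈ K ↔ x ∈ Icc a b := fun x => by
      rw [← h2]
      rfl
    have h3 : sl (swp (chs K)) y = Icc 0 (b - a) := by
      ext r
      constructor
      · rintro ⟨hr, x, hx1, hx2⟩
        have hr' : 0 ≤ r := hr
        have hx1' := (hmem _).1 hx1
        have hx2' := (hmem _).1 hx2
        have e : x + r ≤ b := hx2'.2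
        exact ⟨hr', by linarith [hx1'.1]⟩
      · intro hr
        refine ⟨hr.1, a, ha, ?_⟩
        exact (hmem _).2 ⟨by
          change a ≤ a + r
          linarith [hr.1], by
          change a + r ≤ b
          linarith [hr.2]⟩
    rw [h3, h2, Real.volume_real_Icc_of_le (by linarith), Real.volume_real_Icc_of_le hab]
    ring
  · have h2 : sl (swp K) y = ∅ := not_nonempty_iff_eq_empty.1 hne
    have h3 : sl (swp (chs K)) y = ∅ := by
      ext r
      simp only [mem_empty_iff_false, iff_false]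
      rintro ⟨-, x, hx1, -⟩
      have : x ∈ sl (swp K) y := hx1
      rw [h2] at this
      exact this
    rw [h2, h3]

section main

variable {K : Set (ℝ × ℝ)} (hc : Convex ℝ K)

/-- the area of a polygon by slices -/
theorem hull_area {v : Fin 6 → ℝ × ℝ} {s t : ℝ} (hst : s ≤ t)
    (h : ∀ i, (v i).2 ∈ Icc s t) :
    IsCompact (swp (convexHull ℝ (range v))) ∧ Convex ℝ (swp (convexHull ℝ (range v))) ∧
    volume.real (convexHull ℝ (range v)) =
      ∫ y in s..t, volume.real (sl (swp (convexHull ℝ (range v))) y) := by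
  have h1 : IsCompact (convexHull ℝ (range v)) := (finite_range v).isCompact_convexHull ℝ
  have h2 : Convex ℝ (convexHull ℝ (range v)) := convex_convexHull ℝ _
  have h3 : ∀ z ∈ convexHull ℝ (range v), z.2 ∈ Icc s t := by
    intro z hz
    have h4 : convexHull ℝ (range v) ⊆ {z : ℝ × ℝ | z.2 ∈ Icc s t} := by
      refine convexHull_min ?_ ?_
      · rintro _ ⟨i, rfl⟩
        exact h i
      · exact (convex_Icc s t).linear_preimage (LinearMap.snd ℝ ℝ ℝ)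
    exact h4 hz
  refine ⟨isCompact_swp h1, convex_swp h2, ?_⟩
  rw [← real_swp h1, real_eq_integral (isCompact_swp h1) hst (fun z hz => h3 _ hz)]

include hc in
/-- the hexagon with two parallel sides of length `r` and the longest chord between them -/
theorem hexagon_two {ax ay r y1 y2 x1 x2 : ℝ} (hr : 0 ≤ r) (ha : (ax, ay) ∈ K)
    (hb : (ax + 1, ay) ∈ K) (hfull : ∀ z ∈ K, z.2 = ay → ax ≤ z.1 ∧ z.1 ≤ ax + 1)
    (h1 : (x1, y1) ∈ K) (h1' : (x1 + r, y1) ∈ K) (h2 : (x2, y2) ∈ K) (h2' : (x2 + r, y2) ∈ K)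
    (hy1 : y1 ≤ ay) (hy2 : ay ≤ y2) :
    ∃ v, IsPHex v ∧ (∀ i, v i ∈ K) ∧
      (1 + r) / 2 * (y2 - y1) ≤ volume.real (convexHull ℝ (range v)) := by
  have hR : ∀ z ∈ K, z.2 = ((ax + 1, ay) : ℝ × ℝ).2 → z.1 ≤ ((ax + 1, ay) : ℝ × ℝ).1 :=
    fun z hz h => (hfull z hz h).2
  have hL : ∀ z ∈ K, z.2 = ((ax, ay) : ℝ × ℝ).2 → ((ax, ay) : ℝ × ℝ).1 ≤ z.1 :=
    fun z hz h => (hfull z hz h).1
  have f1 := orient_right hc h1 h2' hy1 hy2 hR
  have f2 := orient_right hc h1 h2 hy1 hy2 hR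
  have f3 := orient_right hc h1' h2' hy1 hy2 hR
  have f4 := orient_right hc h1' h2 hy1 hy2 hR
  have g1 := orient_left hc h1 h2' hy1 hy2 hL
  have g2 := orient_left hc h1 h2 hy1 hy2 hL
  have g3 := orient_left hc h1' h2' hy1 hy2 hL
  have g4 := orient_left hc h1' h2 hy1 hy2 hL
  simp only at f1 f2 f3 f4 g1 g2 g3 g4
  have m1 : 0 ≤ r * (ay - y1) := mul_nonneg hr (by linarith)
  have m2 : 0 ≤ r * (y2 - ay) := mul_nonneg hr (by linarith)
  have m3 : 0 ≤ r * (y2 - y1) := mul_nonneg hr (by linarith)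
  set v : Fin 6 → ℝ × ℝ := ![(x1, y1), (x1 + r, y1), (ax + 1, ay), (x2 + r, y2), (x2, y2),
    (ax, ay)] with hvdef
  have hv : ∀ i, v i ∈ K := by
    intro i
    fin_cases i
    · exact h1
    · exact h1'
    · exact hb
    · exact h2'
    · exact h2
    · exact ha
  refine ⟨v, ?_, hv, ?_⟩
  · refine isPHex_mk ?_ ?_ ?_ ?_ ?_ ?_ ?_ ?_ ?_ ?_ ?_ ?_ ?_ ?_ ?_ ?_ ?_ ?_ ?_ ?_ ?_
    on_goal 21 => refine Prod.ext ?_ ?_ <;> simp
    all_goals
      simp only [cr, Prod.mk_sub_mk]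
      nlinarith
  · obtain ⟨hC, hCc, hA⟩ := hull_area (v := v) (hy1.trans hy2) (by
      intro i
      fin_cases i
      · exact ⟨le_refl _, hy1.trans hy2⟩
      · exact ⟨le_refl _, hy1.trans hy2⟩
      · exact ⟨hy1, hy2⟩
      · exact ⟨hy1.trans hy2, le_refl _⟩
      · exact ⟨hy1.trans hy2, le_refl _⟩
      · exact ⟨hy1, hy2⟩)
    have hm : ∀ i, v i ∈ convexHull ℝ (range v) := fun i => subset_convexHull ℝ _ ⟨i, rfl⟩
    have t1 := trapezoid_le hC hCc hy1 hr zero_le_one (hm 0) (hm 1) (hm 5) (hm 2)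
    have t2 := trapezoid_le hC hCc hy2 zero_le_one hr (hm 5) (hm 2) (hm 4) (hm 3)
    rw [hA, ← intervalIntegral.integral_add_adjacent_intervals
      (intervalIntegrable_sl hC y1 ay) (intervalIntegrable_sl hC ay y2)]
    nlinarith

/-- the hexagon with two parallel diagonals of length `r` -/
theorem hexagon_one {r y0 y1 y2 y3 x1 x2 cx dx : ℝ} (hr : 0 ≤ r)
    (h1 : (x1, y1) ∈ K) (h1' : (x1 + r, y1) ∈ K) (h2 : (x2, y2) ∈ K) (h2' : (x2 + r, y2) ∈ K)
    (hy0 : y0 ≤ y1) (hy1 : y1 ≤ y2) (hy3 : y2 ≤ y3) (hcK : (cx, y0) ∈ K) (hdK : (dx, y3) ∈ K)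
    (hcR : ∀ Q ∈ K, y1 ≤ Q.2 → 0 ≤ (x1 + r - cx) * (Q.2 - y0) - (y1 - y0) * (Q.1 - cx))
    (hcL : ∀ Q ∈ K, y1 ≤ Q.2 → (x1 - cx) * (Q.2 - y0) - (y1 - y0) * (Q.1 - cx) ≤ 0)
    (hdR : ∀ P ∈ K, P.2 ≤ y2 → 0 ≤ (x2 + r - P.1) * (y3 - P.2) - (y2 - P.2) * (dx - P.1))
    (hdL : ∀ P ∈ K, P.2 ≤ y2 → (x2 - P.1) * (y3 - P.2) - (y2 - P.2) * (dx - P.1) ≤ 0) :
    ∃ v, IsPHex v ∧ (∀ i, v i ∈ K) ∧
      r / 2 * ((y3 - y0) + (y2 - y1)) ≤ volume.real (convexHull ℝ (range v)) := by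
  have a1 := hcR _ h2' hy1
  have a2 := hcR _ hdK (hy1.trans hy3)
  have a3 := hcR _ h2 hy1
  have b1 := hcL _ h2' hy1
  have b2 := hcL _ hdK (hy1.trans hy3)
  have b3 := hcL _ h2 hy1
  have c1 := hdR _ hcK (hy0.trans hy1)
  have c2 := hdR _ h1 hy1
  have c3 := hdR _ h1' hy1
  have d1 := hdL _ hcK (hy0.trans hy1)
  have d2 := hdL _ h1 hy1
  have d3 := hdL _ h1' hy1
  simp only at a1 a2 a3 b1 b2 b3 c1 c2 c3 d1 d2 d3
  have m1 : 0 ≤ r * (y1 - y0) := mul_nonneg hr (by linarith)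
  have m2 : 0 ≤ r * (y2 - y1) := mul_nonneg hr (by linarith)
  have m3 : 0 ≤ r * (y3 - y2) := mul_nonneg hr (by linarith)
  have m4 : 0 ≤ r * (y2 - y0) := mul_nonneg hr (by linarith)
  have m5 : 0 ≤ r * (y3 - y1) := mul_nonneg hr (by linarith)
  set v : Fin 6 → ℝ × ℝ := ![(x1 + r, y1), (x2 + r, y2), (dx, y3), (x2, y2), (x1, y1),
    (cx, y0)] with hvdef
  have hv : ∀ i, v i ∈ K := by
    intro i
    fin_cases i
    · exact h1'
    · exact h2'
    · exact hdK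
    · exact h2
    · exact h1
    · exact hcK
  have hy03 : y0 ≤ y3 := hy0.trans (hy1.trans hy3)
  refine ⟨v, ?_, hv, ?_⟩
  · refine isPHex_mk ?_ ?_ ?_ ?_ ?_ ?_ ?_ ?_ ?_ ?_ ?_ ?_ ?_ ?_ ?_ ?_ ?_ ?_ ?_ ?_ ?_
    on_goal 21 => refine Prod.ext ?_ ?_ <;> simp
    all_goals
      simp only [cr, Prod.mk_sub_mk]
      nlinarith
  · obtain ⟨hC, hCc, hA⟩ := hull_area (v := v) hy03 (by
      intro i
      fin_cases i
      · exact ⟨hy0, hy1.trans hy3⟩
      · exact ⟨hy0.trans hy1, hy3⟩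
      · exact ⟨hy03, le_refl _⟩
      · exact ⟨hy0.trans hy1, hy3⟩
      · exact ⟨hy0, hy1.trans hy3⟩
      · exact ⟨le_refl _, hy03⟩)
    have hm : ∀ i, v i ∈ convexHull ℝ (range v) := fun i => subset_convexHull ℝ _ ⟨i, rfl⟩
    have hm5 : ((y0, cx + 0) : ℝ × ℝ) ∈ swp (convexHull ℝ (range v)) := by
      rw [add_zero]
      exact hm 5
    have hm2 : ((y3, dx + 0) : ℝ × ℝ) ∈ swp (convexHull ℝ (range v)) := by
      rw [add_zero]
      exact hm 2
    have t1 := trapezoid_le hC hCc hy0 (le_refl 0) hr (hm 5) hm5 (hm 4) (hm 0)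
    have t2 := trapezoid_le hC hCc hy1 hr hr (hm 4) (hm 0) (hm 3) (hm 1)
    have t3 := trapezoid_le hC hCc hy3 hr (le_refl 0) (hm 3) (hm 1) (hm 2) hm2
    rw [hA, ← intervalIntegral.integral_add_adjacent_intervals
      (intervalIntegrable_sl hC y0 y2) (intervalIntegrable_sl hC y2 y3),
      ← intervalIntegral.integral_add_adjacent_intervals
      (intervalIntegrable_sl hC y0 y1) (intervalIntegrable_sl hC y1 y2)]
    nlinarith

end main

end Pool.Agent.Work.MP_bf6e36_co.PH
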