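import Pool.Agent.Work.MP_bf6e36_co.PHVol

/-! # The two p-hexagons with two horizontal chords of the same length -/

set_option autoImplicit false

namespace Pool.Agent.Work.MP_bf6e36_co.PH

open MeasureTheory Set

theorem isPHex_mk {v0 v1 v2 v3 v4 v5 : ℝ × ℝ}
    (h012 : 0 ≤ cr (v1 - v0) (v2 - v0)) (h013 : 0 ≤ cr (v1 - v0) (v3 - v0))
    (h014 : 0 ≤ cr (v1 - v0) (v4 - v0)) (h015 : 0 ≤ cr (v1 - v0) (v5 - v0))
    (h023 : 0 ≤ cr (v2 - v0) (v3 - v0)) (h024 : 0 ≤ cr (v2 - v0) (v4 - v0))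
    (h025 : 0 ≤ cr (v2 - v0) (v5 - v0)) (h034 : 0 ≤ cr (v3 - v0) (v4 - v0))
    (h035 : 0 ≤ cr (v3 - v0) (v5 - v0)) (h045 : 0 ≤ cr (v4 - v0) (v5 - v0))
    (h123 : 0 ≤ cr (v2 - v1) (v3 - v1)) (h124 : 0 ≤ cr (v2 - v1) (v4 - v1))
    (h125 : 0 ≤ cr (v2 - v1) (v5 - v1)) (h134 : 0 ≤ cr (v3 - v1) (v4 - v1))
    (h135 : 0 ≤ cr (v3 - v1) (v5 - v1)) (h145 : 0 ≤ cr (v4 - v1) (v5 - v1))
    (h234 : 0 ≤ cr (v3 - v2) (v4 - v2)) (h235 : 0 ≤ cr (v3 - v2) (v5 - v2))
    (h245 : 0 ≤ cr (v4 - v2) (v5 - v2)) (h345 : 0 ≤ cr (v4 - v3) (v5 - v3))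
    (hp : v1 - v0 = v3 - v4) : IsPHex ![v0, v1, v2, v3, v4, v5] := by
  refine ⟨?_, hp⟩
  intro i j k hij hjk
  fin_cases i <;> fin_cases j <;>
    first
    | exact absurd hij (by decide)
    | (fin_cases k <;>
        first
        | exact absurd hjk (by decide)
        | exact h012
        | exact h013
        | exact h014
        | exact h015
        | exact h023
        | exact h024
        | exact h025
        | exact h034
        | exact h035
        | exact h045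
        | exact h123
        | exact h124
        | exact h125
        | exact h134
        | exact h135
        | exact h145
        | exact h234
        | exact h235
        | exact h245
        | exact h345)

/-- the point `V` is on the right of the segment `P Q` -/
theorem orient_right {K : Set (ℝ × ℝ)} (hc : Convex ℝ K) {P V Q : ℝ × ℝ} (hP : P ∈ K) (hQ : Q ∈ K)
    (h1 : P.2 ≤ V.2) (h2 : V.2 ≤ Q.2) (hV : ∀ z ∈ K, z.2 = V.2 → z.1 ≤ V.1) :
    0 ≤ (V.1 - P.1) * (Q.2 - P.2) - (V.2 - P.2) * (Q.1 - P.1) := by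
  rcases (h1.trans h2).eq_or_lt with h0 | h0
  · have h3 : V.2 = P.2 := by linarith
    rw [h3, h0]
    simp
  · set l : ℝ := (V.2 - P.2) / (Q.2 - P.2) with hl
    have h3 : 0 < Q.2 - P.2 := by linarith
    have hl0 : 0 ≤ l := div_nonneg (by linarith) h3.le
    have hl1 : l ≤ 1 := by
      rw [hl, div_le_one h3]
      linarith
    have hls : l * (Q.2 - P.2) = V.2 - P.2 := div_mul_cancel₀ _ h3.ne'
    have h4 := hc hP hQ (by linarith : 0 ≤ 1 - l) hl0 (by ring)
    have h5 := hV _ h4 (by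
      simp only [Prod.snd_add, Prod.smul_snd, smul_eq_mul]
      linarith)
    simp only [Prod.fst_add, Prod.smul_fst, smul_eq_mul] at h5
    have h6 : (l * (Q.1 - P.1)) * (Q.2 - P.2) ≤ (V.1 - P.1) * (Q.2 - P.2) :=
      mul_le_mul_of_nonneg_right (by linarith) h3.le
    have h7 : (l * (Q.1 - P.1)) * (Q.2 - P.2) = (V.2 - P.2) * (Q.1 - P.1) := by
      rw [← hls]
      ring
    linarith

/-- the point `V` is on the left of the segment `P Q` -/
theorem orient_left {K : Set (ℝ × ℝ)} (hc : Convex ℝ K) {P V Q : ℝ × ℝ} (hP : P ∈ K) (hQ : Q ∈ K)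
    (h1 : P.2 ≤ V.2) (h2 : V.2 ≤ Q.2) (hV : ∀ z ∈ K, z.2 = V.2 → V.1 ≤ z.1) :
    (V.1 - P.1) * (Q.2 - P.2) - (V.2 - P.2) * (Q.1 - P.1) ≤ 0 := by
  rcases (h1.trans h2).eq_or_lt with h0 | h0
  · have h3 : V.2 = P.2 := by linarith
    rw [h3, h0]
    simp
  · set l : ℝ := (V.2 - P.2) / (Q.2 - P.2) with hl
    have h3 : 0 < Q.2 - P.2 := by linarith
    have hl0 : 0 ≤ l := div_nonneg (by linarith) h3.le
    have hl1 : l ≤ 1 := by
      rw [hl, div_le_one h3]
      linarith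
    have hls : l * (Q.2 - P.2) = V.2 - P.2 := div_mul_cancel₀ _ h3.ne'
    have h4 := hc hP hQ (by linarith : 0 ≤ 1 - l) hl0 (by ring)
    have h5 := hV _ h4 (by
      simp only [Prod.snd_add, Prod.smul_snd, smul_eq_mul]
      linarith)
    simp only [Prod.fst_add, Prod.smul_fst, smul_eq_mul] at h5
    have h6 : (V.1 - P.1) * (Q.2 - P.2) ≤ (l * (Q.1 - P.1)) * (Q.2 - P.2) :=
      mul_le_mul_of_nonneg_right (by linarith) h3.le
    have h7 : (l * (Q.1 - P.1)) * (Q.2 - P.2) = (V.2 - P.2) * (Q.1 - P.1) := by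
      rw [← hls]
      ring
    linarith

/-- an extremal chord of length `r` is the whole slice -/
theorem chord_full {K : Set (ℝ × ℝ)} (hc : Convex ℝ K) {r : ℝ} (hr : 0 ≤ r) {V e : ℝ × ℝ}
    (hV : V ∈ K) (hV' : V + (r, 0) ∈ K) (he : e ∈ K)
    (hmin : ∀ l : ℝ, 0 < l → l ≤ 1 → ∀ z ∈ K, z + (r, 0) ∈ K → z.2 ≠ (1 - l) * V.2 + l * e.2) :
    ∀ z ∈ K, z.2 = V.2 → V.1 ≤ z.1 ∧ z.1 ≤ V.1 + r := by
  have key : ∀ z w : ℝ × ℝ, z ∈ K → w ∈ K → z.2 = V.2 → w.2 = V.2 → w.1 - z.1 ≤ r := by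
    intro z w hz hw hz2 hw2
    by_contra hlt
    push Not at hlt
    have h0 : 0 < w.1 - z.1 := by linarith
    set l : ℝ := 1 - r / (w.1 - z.1) with hl
    have h1 : 0 < l := by
      rw [hl, sub_pos, div_lt_one h0]
      exact hlt
    have h2 : l ≤ 1 := by
      rw [hl]
      have := div_nonneg hr h0.le
      linarith
    have h3 : (1 - l) * (w.1 - z.1) = r := by
      rw [hl, sub_sub_cancel, div_mul_cancel₀ _ h0.ne']
    have h4 := hc hz he (by linarith : 0 ≤ 1 - l) h1.le (by ring)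
    have h5 := hc hw he (by linarith : 0 ≤ 1 - l) h1.le (by ring)
    refine hmin l h1 h2 _ h4 ?_ ?_
    · have h6 : (1 - l) • z + l • e + (r, 0) = (1 - l) • w + l • e := by
        ext
        · simp only [Prod.fst_add, Prod.smul_fst, smul_eq_mul]
          linarith
        · simp only [Prod.snd_add, Prod.smul_snd, smul_eq_mul]
          rw [hz2, hw2, add_zero]
      rw [h6]
      exact h5
    · simp only [Prod.snd_add, Prod.smul_snd, smul_eq_mul]
      rw [hz2]
  intro z hz hz2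
  have h1 := key z (V + (r, 0)) hz hV' hz2 (by simp)
  have h2 := key V z hV hz rfl hz2
  have h3 : (V + (r, 0)).1 = V.1 + r := rfl
  rw [h3] at h1
  constructor <;> linarith

theorem cr_sub (u v w : ℝ × ℝ) :
    cr (v - u) (w - u) = (v.1 - u.1) * (w.2 - u.2) - (v.2 - u.2) * (w.1 - u.1) := rfl

section hex

variable {K : Set (ℝ × ℝ)} (hK : IsCompact K) (hc : Convex ℝ K)

/-- swap the coordinates -/
def swp (Q : Set (ℝ × ℝ)) : Set (ℝ × ℝ) := Prod.swap ⁻¹' Q

theorem isCompact_swp {Q : Set (ℝ × ℝ)} (hQ : IsCompact Q) : IsCompact (swp Q) := by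
  have : swp Q = Prod.swap '' Q := by
    rw [swp, Set.image_swap_eq_preimage_swap]
  rw [this]
  exact hQ.image continuous_swap

theorem convex_swp {Q : Set (ℝ × ℝ)} (hQ : Convex ℝ Q) : Convex ℝ (swp Q) :=
  fun _ hx _ hy _ _ ha hb hab => hQ hx hy ha hb hab

theorem real_swp {Q : Set (ℝ × ℝ)} (hQ : IsCompact Q) : volume.real (swp Q) = volume.real Q := by
  have h1 : MeasurePreserving (Prod.swap : ℝ × ℝ → ℝ × ℝ) volume volume := by
    have := Measure.measurePreserving_swap (μ := (volume : Measure ℝ)) (ν := (volume : Measure ℝ))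
    rwa [← Measure.volume_eq_prod] at this
  rw [measureReal_def, measureReal_def, swp,
    h1.measure_preimage hQ.measurableSet.nullMeasurableSet]

end hex

end Pool.Agent.Work.MP_bf6e36_co.PH
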