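import Pool.Agent.Work.MP_bf6e36_co.PHDir

/-! # The estimate in one direction -/

set_option autoImplicit false

namespace Pool.Agent.Work.MP_bf6e36_co.PH

open MeasureTheory Set

theorem smul_pair_snd (a b : ℝ) (u w : ℝ × ℝ) : (a • u + b • w).2 = a * u.2 + b * w.2 := rfl

/-- a normalised body: the longest horizontal chord has length 1, the height is `X` -/
theorem onedir {K : Set (ℝ × ℝ)} (hK : IsCompact K) (hc : Convex ℝ K) {X : ℝ} (hX : 0 < X)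
    {a c d : ℝ × ℝ} (ha : a ∈ K) (hb : a + (1, 0) ∈ K) (hcK : c ∈ K) (hdK : d ∈ K)
    (hmax : ∀ z ∈ K, ∀ w ∈ K, w.2 = z.2 → w.1 - z.1 ≤ 1)
    (hcd : d.2 = c.2 + X) (hy : ∀ z ∈ K, c.2 ≤ z.2 ∧ z.2 ≤ d.2)
    {k₁ k₂ : ℝ} (h0 : 0 ≤ k₁) (h1 : k₁ ≤ k₂) (h2 : k₂ < 1) (_h3 : k₁ + k₂ ≤ 1) :
    ∃ v, IsPHex v ∧ (∀ i, v i ∈ K) ∧
      volume.real K + (1 - k₁ - k₂) * X ≤ BB k₁ k₂ * volume.real (convexHull ℝ (range v)) := by
  obtain ⟨ax, ay⟩ := a
  obtain ⟨cx, cy⟩ := c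
  obtain ⟨dx, dy⟩ := d
  have hb' : (ax + 1, ay) ∈ K := by
    have : ((ax, ay) : ℝ × ℝ) + (1, 0) = (ax + 1, ay) := by
      rw [Prod.mk_add_mk, add_zero]
    rwa [this] at hb
  simp only at hcd hy
  have hcd' : cy ≤ dy := by linarith
  set Q := chs K with hQdef
  have hQ : IsCompact Q := isCompact_chs hK
  have hQc : Convex ℝ Q := convex_chs hc
  have hQ1 : ∀ z ∈ Q, z.1 ∈ Icc (0 : ℝ) 1 := by
    rintro ⟨r, y⟩ ⟨hr, x, hx1, hx2⟩
    refine ⟨hr, ?_⟩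
    have := hmax _ hx1 _ hx2 rfl
    simp only at this
    change r ≤ 1
    linarith
  have hQy : ∀ z ∈ Q, z.2 ∈ Icc cy dy := by
    rintro ⟨r, y⟩ ⟨-, x, hx1, -⟩
    exact hy (x, y) hx1
  -- the slices
  have hay : ∀ r ∈ Icc (0 : ℝ) 1, ay ∈ sl Q r := by
    intro r hr
    refine ⟨hr.1, ax, ha, ?_⟩
    have h4 := hc ha hb' (by linarith [hr.2] : 0 ≤ 1 - r) hr.1 (by ring)
    have h5 : (1 - r) • ((ax, ay) : ℝ × ℝ) + r • ((ax + 1, ay) : ℝ × ℝ) = (ax + r, ay) := by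
      ext
      · simp only [Prod.smul_mk, Prod.mk_add_mk, smul_eq_mul]
        ring
      · simp only [Prod.smul_mk, Prod.mk_add_mk, smul_eq_mul]
        ring
    rw [h5] at h4
    exact h4
  have hslice : ∀ r ∈ Icc (0 : ℝ) 1, ∃ y1 y2, y1 ≤ ay ∧ ay ≤ y2 ∧ sl Q r = Icc y1 y2 ∧
      cy ≤ y1 ∧ y2 ≤ dy := by
    intro r hr
    obtain ⟨y1, y2, hy12, h4⟩ := sl_eq_Icc hQ hQc ⟨_, hay r hr⟩
    have h5 : ay ∈ Icc y1 y2 := h4 ▸ hay r hr
    have h6 : y1 ∈ sl Q r := h4 ▸ left_mem_Icc.2 hy12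
    have h7 : y2 ∈ sl Q r := h4 ▸ right_mem_Icc.2 hy12
    exact ⟨y1, y2, h5.1, h5.2, h4, (hQy _ h6).1, (hQy _ h7).2⟩
  set D : ℝ → ℝ := fun r => volume.real (sl Q r) with hD
  -- the area
  have hA1 : volume.real K = ∫ r in (0 : ℝ)..1, D r := by
    rw [← real_chs hK hc hcd' (fun z hz => hy z hz), real_eq_integral hQ zero_le_one hQ1]
  have hne : ∀ s t : ℝ, 0 ≤ s → t ≤ 1 → ∀ r ∈ Icc s t, (sl Q r).Nonempty := fun s t hs ht r hr =>
    ⟨ay, hay r ⟨hs.trans hr.1, hr.2.trans ht⟩⟩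
  have hI := intervalIntegrable_sl hQ
  have hA2 : ∫ r in (0 : ℝ)..1, D r = (∫ r in (0 : ℝ)..k₁, D r) + (∫ r in k₁..k₂, D r) +
      ∫ r in k₂..1, D r := by
    rw [intervalIntegral.integral_add_adjacent_intervals (hI 0 k₁) (hI k₁ k₂),
      intervalIntegral.integral_add_adjacent_intervals (hI 0 k₂) (hI k₂ 1)]
  have hA3 := integral_sl_le hQ hQc h1 (hne k₁ k₂ h0 h2.le)
  have hA4 := integral_sl_le hQ hQc h2.le (hne k₂ 1 (h0.trans h1) le_rfl)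
  have hDX : ∀ r ∈ Icc (0 : ℝ) k₁, D r ≤ X := by
    intro r hr
    obtain ⟨y1, y2, h4, h5, h6, h7, h8⟩ := hslice r ⟨hr.1, by linarith [hr.2]⟩
    simp only [hD]
    rw [h6, Real.volume_real_Icc_of_le (h4.trans h5)]
    linarith
  have hA5 : ∫ r in (0 : ℝ)..k₁, D r ≤ k₁ * X := by
    have h4 := intervalIntegral.integral_mono_on h0 (hI 0 k₁) intervalIntegrable_const hDX
    rw [intervalIntegral.integral_const, smul_eq_mul, sub_zero] at h4
    exact h4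
  -- the full chord
  have hfull : ∀ z ∈ K, z.2 = ay → ax ≤ z.1 ∧ z.1 ≤ ax + 1 := by
    intro z hz hz2
    have h4 := hmax z hz _ hb' hz2.symm
    have h5 := hmax _ ha z hz hz2
    simp only at h4 h5
    constructor <;> linarith
  -- type 2
  have T2 : ∀ r ∈ Icc (0 : ℝ) 1, ∃ v, IsPHex v ∧ (∀ i, v i ∈ K) ∧
      (1 + r) / 2 * D r ≤ volume.real (convexHull ℝ (range v)) := by
    intro r hr
    obtain ⟨y1, y2, h4, h5, h6, h7, h8⟩ := hslice r hr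
    have hm1 : y1 ∈ sl Q r := h6 ▸ left_mem_Icc.2 (h4.trans h5)
    have hm2 : y2 ∈ sl Q r := h6 ▸ right_mem_Icc.2 (h4.trans h5)
    obtain ⟨-, x1, hx1, hx1'⟩ := hm1
    obtain ⟨-, x2, hx2, hx2'⟩ := hm2
    obtain ⟨v, hv1, hv2, hv3⟩ := hexagon_two hc hr.1 ha hb' hfull hx1 hx1' hx2 hx2' h4 h5
    refine ⟨v, hv1, hv2, le_trans (le_of_eq ?_) hv3⟩
    simp only [hD]
    rw [h6, Real.volume_real_Icc_of_le (h4.trans h5)]
  -- type 1
  have T1 : ∀ r ∈ Ico (0 : ℝ) 1, ∃ v, IsPHex v ∧ (∀ i, v i ∈ K) ∧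
      r / 2 * (X + D r) ≤ volume.real (convexHull ℝ (range v)) := by
    intro r hr
    obtain ⟨y1, y2, h4, h5, h6, h7, h8⟩ := hslice r ⟨hr.1, hr.2.le⟩
    have hm1 : y1 ∈ sl Q r := h6 ▸ left_mem_Icc.2 (h4.trans h5)
    have hm2 : y2 ∈ sl Q r := h6 ▸ right_mem_Icc.2 (h4.trans h5)
    obtain ⟨-, x1, hx1, hx1'⟩ := hm1
    obtain ⟨-, x2, hx2, hx2'⟩ := hm2
    have hx1a : (x1, y1) ∈ K := hx1
    have hx1b : (x1 + r, y1) ∈ K := hx1'
    have hx2a : (x2, y2) ∈ K := hx2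
    have hx2b : (x2 + r, y2) ∈ K := hx2'
    have hadd : ∀ z : ℝ × ℝ, z + (r, 0) = (z.1 + r, z.2) := fun z => by
      ext
      · rfl
      · simp
    have hmem : ∀ z ∈ K, z + (r, 0) ∈ K → z.2 ∈ Icc y1 y2 := by
      intro z hz hz'
      rw [← h6]
      rw [hadd] at hz'
      exact ⟨hr.1, z.1, hz, hz'⟩
    -- the bottom
    have hbot : ∃ cx', (cx', cy) ∈ K ∧
        (∀ P ∈ K, y1 ≤ P.2 → 0 ≤ (x1 + r - cx') * (P.2 - cy) - (y1 - cy) * (P.1 - cx')) ∧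
        (∀ P ∈ K, y1 ≤ P.2 → (x1 - cx') * (P.2 - cy) - (y1 - cy) * (P.1 - cx') ≤ 0) := by
      rcases h7.eq_or_lt with h9 | h9
      · refine ⟨x1, by rw [h9]; exact hx1a, fun P _ hP => ?_, fun P _ hP => ?_⟩
        · rw [h9]
          have : 0 ≤ r * (P.2 - y1) := mul_nonneg hr.1 (by linarith)
          nlinarith
        · rw [h9]
          simp
      · have hf := chord_full hc hr.1 (V := (x1, y1)) (e := (cx, cy)) hx1a (by
          rw [hadd]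
          exact hx1b) hcK (by
          intro l hl0 hl1 z hz hz' heq
          have h10 := (hmem z hz hz').1
          rw [heq] at h10
          simp only at h10
          nlinarith)
        refine ⟨cx, hcK, fun P hP hP' => ?_, fun P hP hP' => ?_⟩
        · exact orient_right hc (V := (x1 + r, y1)) hcK hP h9.le hP' (fun z hz hz2 =>
            (hf z hz hz2).2)
        · exact orient_left hc (V := (x1, y1)) hcK hP h9.le hP' (fun z hz hz2 =>
            (hf z hz hz2).1)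
    have htop : ∃ dx', (dx', dy) ∈ K ∧
        (∀ P ∈ K, P.2 ≤ y2 → 0 ≤ (x2 + r - P.1) * (dy - P.2) - (y2 - P.2) * (dx' - P.1)) ∧
        (∀ P ∈ K, P.2 ≤ y2 → (x2 - P.1) * (dy - P.2) - (y2 - P.2) * (dx' - P.1) ≤ 0) := by
      rcases h8.eq_or_lt with h9 | h9
      · refine ⟨x2, by rw [← h9]; exact hx2a, fun P _ hP => ?_, fun P _ hP => ?_⟩
        · rw [← h9]
          have : 0 ≤ r * (y2 - P.2) := mul_nonneg hr.1 (by linarith)
          nlinarith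
        · rw [← h9]
          have : (x2 - P.1) * (y2 - P.2) - (y2 - P.2) * (x2 - P.1) = 0 := by ring
          rw [this]
      · have hf := chord_full hc hr.1 (V := (x2, y2)) (e := (dx, dy)) hx2a (by
          rw [hadd]
          exact hx2b) hdK (by
          intro l hl0 hl1 z hz hz' heq
          have h10 := (hmem z hz hz').2
          rw [heq] at h10
          simp only at h10
          nlinarith)
        refine ⟨dx, hdK, fun P hP hP' => ?_, fun P hP hP' => ?_⟩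
        · exact orient_right hc (V := (x2 + r, y2)) hP hdK hP' h9.le (fun z hz hz2 =>
            (hf z hz hz2).2)
        · exact orient_left hc (V := (x2, y2)) hP hdK hP' h9.le (fun z hz hz2 =>
            (hf z hz hz2).1)
    obtain ⟨cx', hc1, hc2, hc3⟩ := hbot
    obtain ⟨dx', hd1, hd2, hd3⟩ := htop
    obtain ⟨v, hv1, hv2, hv3⟩ := hexagon_one hr.1 hx1a hx1b hx2a hx2b h7 (h4.trans h5) h8 hc1 hd1
      hc2 hc3 hd2 hd3
    refine ⟨v, hv1, hv2, le_trans (le_of_eq ?_) hv3⟩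
    simp only [hD]
    rw [h6, Real.volume_real_Icc_of_le (h4.trans h5)]
    rw [hcd]
    ring
  -- the end
  obtain ⟨v1, hv1, hv1K, hv1A⟩ := T1 ((k₂ + 1) / 2) ⟨by linarith, by linarith⟩
  obtain ⟨v2, hv2, hv2K, hv2A⟩ := T2 ((k₁ + k₂) / 2) ⟨by linarith, by linarith⟩
  set m1 := volume.real (convexHull ℝ (range v1)) with hm1
  set m2 := volume.real (convexHull ℝ (range v2)) with hm2
  have hq1 : (1 - k₂) * D ((k₂ + 1) / 2) ≤ 4 * (1 - k₂) / (1 + k₂) * m1 - (1 - k₂) * X := by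
    have h4 : 0 < 1 + k₂ := by linarith
    have h5 : D ((k₂ + 1) / 2) ≤ 4 / (1 + k₂) * m1 - X := by
      have h6 : 4 / (1 + k₂) * ((k₂ + 1) / 2 / 2 * (X + D ((k₂ + 1) / 2))) ≤ 4 / (1 + k₂) * m1 :=
        mul_le_mul_of_nonneg_left hv1A (by positivity)
      have h7 : 4 / (1 + k₂) * ((k₂ + 1) / 2 / 2 * (X + D ((k₂ + 1) / 2))) =
          X + D ((k₂ + 1) / 2) := by
        field_simp
        ring
      linarith
    have h6 := mul_le_mul_of_nonneg_left h5 (by linarith : 0 ≤ 1 - k₂)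
    have h7 : (1 - k₂) * (4 / (1 + k₂) * m1 - X) = 4 * (1 - k₂) / (1 + k₂) * m1 - (1 - k₂) * X := by
      ring
    linarith
  have hq2 : (k₂ - k₁) * D ((k₁ + k₂) / 2) ≤ 4 * (k₂ - k₁) / (2 + k₁ + k₂) * m2 := by
    have h4 : 0 < 2 + k₁ + k₂ := by linarith
    have h5 : D ((k₁ + k₂) / 2) ≤ 4 / (2 + k₁ + k₂) * m2 := by
      have h6 : 4 / (2 + k₁ + k₂) * ((1 + (k₁ + k₂) / 2) / 2 * D ((k₁ + k₂) / 2)) ≤
          4 / (2 + k₁ + k₂) * m2 := mul_le_mul_of_nonneg_left hv2A (by positivity)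
      have h7 : 4 / (2 + k₁ + k₂) * ((1 + (k₁ + k₂) / 2) / 2 * D ((k₁ + k₂) / 2)) =
          D ((k₁ + k₂) / 2) := by
        field_simp
        ring
      linarith
    have h6 := mul_le_mul_of_nonneg_left h5 (by linarith : 0 ≤ k₂ - k₁)
    have h7 : (k₂ - k₁) * (4 / (2 + k₁ + k₂) * m2) = 4 * (k₂ - k₁) / (2 + k₁ + k₂) * m2 := by
      ring
    linarith
  have hB1 : 0 ≤ 4 * (1 - k₂) / (1 + k₂) := div_nonneg (by linarith) (by linarith)
  have hB2 : 0 ≤ 4 * (k₂ - k₁) / (2 + k₁ + k₂) := div_nonneg (by linarith) (by linarith)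
  have hfin : ∀ m, m1 ≤ m → m2 ≤ m → volume.real K + (1 - k₁ - k₂) * X ≤ BB k₁ k₂ * m := by
    intro m hm1 hm2
    have e1 := mul_le_mul_of_nonneg_left hm1 hB1
    have e2 := mul_le_mul_of_nonneg_left hm2 hB2
    rw [hA1, hA2, BB]
    nlinarith
  rcases le_total m1 m2 with h | h
  · exact ⟨v2, hv2, hv2K, hfin m2 h le_rfl⟩
  · exact ⟨v1, hv1, hv1K, hfin m1 le_rfl h⟩

end Pool.Agent.Work.MP_bf6e36_co.PH
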