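import Pool.Agent.Work.MP_bf6e36_co.PHDefs

namespace Pool.Agent.Work.MP_bf6e36_co.PH

open MeasureTheory Set

/-- Vertical slice. -/
def slice (D : Set (ℝ × ℝ)) (x : ℝ) : Set ℝ := {y | (x, y) ∈ D}

noncomputable def gs (D : Set (ℝ × ℝ)) (x : ℝ) : ENNReal := volume (slice D x)

lemma slice_compact {D : Set (ℝ × ℝ)} (hD : IsCompact D) (x : ℝ) : IsCompact (slice D x) := by
  have h1 : slice D x = Prod.snd '' (D ∩ (Prod.fst ⁻¹' {x})) := by
    ext y
    simp only [slice, mem_ofPred_eq, mem_image, mem_inter_iff, mem_preimage, mem_singleton_iff]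
    constructor
    · intro h
      exact ⟨(x, y), ⟨h, rfl⟩, rfl⟩
    · rintro ⟨z, ⟨hz, hx⟩, hy⟩
      have : z = (x, y) := Prod.ext hx hy
      rw [← this]; exact hz
  rw [h1]
  exact (hD.inter_right (isClosed_singleton.preimage continuous_fst)).image continuous_snd

lemma gs_even {D : Set (ℝ × ℝ)} (hs : ∀ z ∈ D, -z ∈ D) (x : ℝ) : gs D (-x) = gs D x := by
  have h1 : slice D (-x) = - slice D x := by
    ext y
    simp only [slice, mem_ofPred_eq, Set.mem_neg]
    constructor
    · intro h
      have := hs _ h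
      simpa using this
    · intro h
      have := hs _ h
      simpa using this
  unfold gs
  rw [h1]
  exact Measure.measure_neg volume (slice D x)

/-- Two points realise the length of a slice up to the needed inequality. -/
lemma slice_pts {D : Set (ℝ × ℝ)} (hD : IsCompact D) {x : ℝ} (hne : (slice D x).Nonempty) :
    ∃ l u, (x, l) ∈ D ∧ (x, u) ∈ D ∧ l ≤ u ∧ gs D x ≤ ENNReal.ofReal (u - l) := by
  have hc := slice_compact hD x
  refine ⟨sInf (slice D x), sSup (slice D x), hc.sInf_mem hne, hc.sSup_mem hne, ?_, ?_⟩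
  · exact csInf_le_csSup hne hc.bddBelow hc.bddAbove
  · have : slice D x ⊆ Icc (sInf (slice D x)) (sSup (slice D x)) := by
      intro y hy
      exact ⟨csInf_le hc.bddBelow hy, le_csSup hc.bddAbove hy⟩
    calc gs D x ≤ volume (Icc (sInf (slice D x)) (sSup (slice D x))) := measure_mono this
      _ = _ := Real.volume_Icc

/-- The pointwise inequality. -/
lemma pointwise {D : Set (ℝ × ℝ)} (hD : IsCompact D) (hs : ∀ z ∈ D, -z ∈ D) {X : ℝ}
    (hX : ∀ p ∈ D, ∀ q ∈ D, cr p q ≤ X) {x x' : ℝ} (hx : 0 ≤ x) (hx' : 0 ≤ x')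
    (hne : (slice D x).Nonempty) (hne' : (slice D x').Nonempty) :
    ENNReal.ofReal x * gs D x' + ENNReal.ofReal x' * gs D x ≤ ENNReal.ofReal (2 * X) := by
  obtain ⟨l, u, hl, hu, hlu, hg⟩ := slice_pts hD hne
  obtain ⟨l', u', hl', hu', hlu', hg'⟩ := slice_pts hD hne'
  have h1 := hX _ hl _ hu'
  have h2 := hX _ hu _ (hs _ hl')
  simp only [cr, Prod.fst_neg, Prod.snd_neg] at h1 h2
  calc ENNReal.ofReal x * gs D x' + ENNReal.ofReal x' * gs D x
      ≤ ENNReal.ofReal x * ENNReal.ofReal (u' - l') + ENNReal.ofReal x' * ENNReal.ofReal (u - l) := by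
        gcongr
    _ = ENNReal.ofReal (x * (u' - l') + x' * (u - l)) := by
        rw [← ENNReal.ofReal_mul hx, ← ENNReal.ofReal_mul hx', ← ENNReal.ofReal_add]
        · exact mul_nonneg hx (by linarith)
        · exact mul_nonneg hx' (by linarith)
    _ ≤ ENNReal.ofReal (2 * X) := by
        apply ENNReal.ofReal_le_ofReal
        nlinarith [h1, h2]

lemma measurable_gs {D : Set (ℝ × ℝ)} (hD : IsCompact D) : Measurable (gs D) := by
  have := measurable_measure_prodMk_left (ν := (volume : Measure ℝ)) hD.measurableSet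
  exact this

lemma vol_eq {D : Set (ℝ × ℝ)} (hD : IsCompact D) : volume D = ∫⁻ x, gs D x := by
  rw [Measure.volume_eq_prod, Measure.prod_apply hD.measurableSet]
  rfl

/-- Half of the volume. -/
lemma vol_le {D : Set (ℝ × ℝ)} (hD : IsCompact D) (hs : ∀ z ∈ D, -z ∈ D) {M : ℝ}
    (hM : ∀ z ∈ D, z.1 ≤ M) : volume D ≤ 2 * ∫⁻ x in Ioo 0 M, gs D x := by
  rw [vol_eq hD, two_mul]
  have hmeas := measurable_gs hD
  have h2 : ∫⁻ x in Ioo 0 M, gs D x = ∫⁻ x, (Ioo 0 M).indicator (gs D) x :=
    (lintegral_indicator measurableSet_Ioo _).symm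
  have h3 : ∫⁻ x in Ioo 0 M, gs D x = ∫⁻ x, (Ioo 0 M).indicator (gs D) (-x) := by
    rw [h2]
    exact (lintegral_neg_eq_self (μ := volume) ((Ioo 0 M).indicator (gs D))).symm
  have h4 : (∫⁻ x in Ioo 0 M, gs D x) + ∫⁻ x in Ioo 0 M, gs D x =
      ∫⁻ x, ((Ioo 0 M).indicator (gs D) x + (Ioo 0 M).indicator (gs D) (-x)) := by
    rw [lintegral_add_left (hmeas.indicator measurableSet_Ioo), ← h2, ← h3]
  rw [h4]
  apply lintegral_mono_ae
  have hz : ∀ᵐ x : ℝ, x ∉ ({0, M, -M} : Set ℝ) := by
    have : (volume : Measure ℝ) ({0, M, -M} : Set ℝ) = 0 :=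
      Set.Finite.measure_zero (by simp) _
    exact measure_eq_zero_iff_ae_notMem.mp this
  filter_upwards [hz] with x hx
  simp only [mem_insert_iff, mem_singleton_iff, not_or] at hx
  obtain ⟨hx0, hx1, hx2⟩ := hx
  by_cases hA : |x| < M
  · rcases lt_or_gt_of_ne hx0 with h | h
    · have hm : -x ∈ Ioo 0 M := by
        rw [abs_of_neg h] at hA
        exact ⟨by linarith, hA⟩
      rw [indicator_of_mem hm, gs_even hs]
      exact le_add_self
    · have hm : x ∈ Ioo 0 M := by
        rw [abs_of_pos h] at hA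
        exact ⟨h, hA⟩
      rw [indicator_of_mem hm]
      exact le_self_add
  · have hA' : M < |x| := by
      rcases lt_or_eq_of_le (not_lt.mp hA) with h | h
      · exact h
      · exfalso
        rcases abs_choice x with h' | h'
        · exact hx1 (by rw [← h', h])
        · exact hx2 (by rw [h, h']; ring)
    have he : slice D x = ∅ := by
      ext y
      simp only [slice, mem_ofPred_eq, mem_empty_iff_false, iff_false]
      intro h
      have h1 := hM _ h
      have h2 := hM _ (hs _ h)
      simp only [Prod.fst_neg] at h1 h2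
      rcases abs_choice x with h' | h' <;> linarith
    have : gs D x = 0 := by unfold gs; rw [he]; simp
    rw [this]
    exact zero_le

lemma sub_sin {M : ℝ} (hM : 0 < M) (g : ℝ → ENNReal) :
    ∫⁻ x in Ioo 0 M, g x =
      ∫⁻ t in Ioo 0 (Real.pi / 2), ENNReal.ofReal (M * Real.cos t) * g (M * Real.sin t) := by
  have himg : (fun t => M * Real.sin t) '' (Ioo 0 (Real.pi / 2)) = Ioo 0 M := by
    ext x
    simp only [mem_image, mem_Ioo]
    constructor
    · rintro ⟨t, ⟨h0, h1⟩, rfl⟩
      have hs0 : 0 < Real.sin t := Real.sin_pos_of_pos_of_lt_pi h0 (by linarith [Real.pi_pos])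
      have hs1 : Real.sin t < 1 := by
        have := Real.strictMonoOn_sin (a := t) (b := Real.pi / 2)
          ⟨by linarith, by linarith⟩ ⟨by linarith [Real.pi_pos], le_refl _⟩ h1
        rwa [Real.sin_pi_div_two] at this
      exact ⟨by positivity, by nlinarith⟩
    · rintro ⟨h0, h1⟩
      refine ⟨Real.arcsin (x / M), ⟨?_, ?_⟩, ?_⟩
      · exact Real.arcsin_pos.mpr (by positivity)
      · exact Real.arcsin_lt_pi_div_two.mpr ((div_lt_one hM).mpr h1)
      · rw [Real.sin_arcsin]
        · field_simp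
        · have : 0 < x / M := by positivity
          linarith
        · exact ((div_lt_one hM).mpr h1).le
  have hinj : InjOn (fun t => M * Real.sin t) (Ioo 0 (Real.pi / 2)) := by
    intro a ha b hb hab
    have hab' : Real.sin a = Real.sin b := by
      have : M * Real.sin a = M * Real.sin b := hab
      exact mul_left_cancel₀ hM.ne' this
    exact Real.injOn_sin ⟨by linarith [ha.1, Real.pi_pos], by linarith [ha.2]⟩
      ⟨by linarith [hb.1, Real.pi_pos], by linarith [hb.2]⟩ hab'
  rw [← himg, lintegral_image_eq_lintegral_abs_deriv_mul measurableSet_Ioo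
    (f' := fun t => M * Real.cos t) (fun t _ => ((Real.hasDerivAt_sin t).const_mul M).hasDerivWithinAt)
    hinj]
  apply setLIntegral_congr_fun measurableSet_Ioo
  intro t ht
  have hc : 0 < Real.cos t := Real.cos_pos_of_mem_Ioo ⟨by linarith [ht.1, Real.pi_pos], ht.2⟩
  simp only []
  rw [abs_of_pos (by positivity)]

lemma sub_cos {M : ℝ} (hM : 0 < M) (g : ℝ → ENNReal) :
    ∫⁻ x in Ioo 0 M, g x =
      ∫⁻ t in Ioo 0 (Real.pi / 2), ENNReal.ofReal (M * Real.sin t) * g (M * Real.cos t) := by
  have himg : (fun t => M * Real.cos t) '' (Ioo 0 (Real.pi / 2)) = Ioo 0 M := by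
    ext x
    simp only [mem_image, mem_Ioo]
    constructor
    · rintro ⟨t, ⟨h0, h1⟩, rfl⟩
      have hs0 : 0 < Real.cos t := Real.cos_pos_of_mem_Ioo ⟨by linarith, h1⟩
      have hs1 : Real.cos t < 1 := by
        have := Real.strictAntiOn_cos (a := 0) (b := t)
          ⟨le_refl _, by linarith [Real.pi_pos]⟩ ⟨by linarith, by linarith [Real.pi_pos]⟩ h0
        rwa [Real.cos_zero] at this
      exact ⟨by positivity, by nlinarith⟩
    · rintro ⟨h0, h1⟩
      refine ⟨Real.arccos (x / M), ⟨?_, ?_⟩, ?_⟩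
      · exact Real.arccos_pos.mpr ((div_lt_one hM).mpr h1)
      · exact Real.arccos_lt_pi_div_two.mpr (by positivity)
      · rw [Real.cos_arccos]
        · field_simp
        · have : 0 < x / M := by positivity
          linarith
        · exact ((div_lt_one hM).mpr h1).le
  have hinj : InjOn (fun t => M * Real.cos t) (Ioo 0 (Real.pi / 2)) := by
    intro a ha b hb hab
    have hab' : Real.cos a = Real.cos b := by
      have : M * Real.cos a = M * Real.cos b := hab
      exact mul_left_cancel₀ hM.ne' this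
    exact Real.injOn_cos ⟨by linarith [ha.1], by linarith [ha.2, Real.pi_pos]⟩
      ⟨by linarith [hb.1], by linarith [hb.2, Real.pi_pos]⟩ hab'
  rw [← himg, lintegral_image_eq_lintegral_abs_deriv_mul measurableSet_Ioo
    (f' := fun t => M * (-Real.sin t)) (fun t _ => ((Real.hasDerivAt_cos t).const_mul M).hasDerivWithinAt)
    hinj]
  apply setLIntegral_congr_fun measurableSet_Ioo
  intro t ht
  have hc : 0 < Real.sin t := Real.sin_pos_of_pos_of_lt_pi ht.1 (by linarith [ht.2, Real.pi_pos])
  simp only []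
  rw [mul_neg, abs_neg, abs_of_pos (by positivity)]

theorem sas {D : Set (ℝ × ℝ)} (hD : IsCompact D) (hc : Convex ℝ D) (hne : D.Nonempty)
    (hs : ∀ z ∈ D, -z ∈ D) : ∃ p ∈ D, ∃ q ∈ D, volume.real D ≤ Real.pi * cr p q := by
  classical
  have hcont : Continuous (fun z : (ℝ × ℝ) × (ℝ × ℝ) => cr z.1 z.2) := by
    unfold cr
    fun_prop
  obtain ⟨⟨p, q⟩, hpq, hmax⟩ := (hD.prod hD).exists_isMaxOn (hne.prod hne) hcont.continuousOn
  have hp : p ∈ D := hpq.1
  have hq : q ∈ D := hpq.2
  have hX : ∀ p' ∈ D, ∀ q' ∈ D, cr p' q' ≤ cr p q := fun p' hp' q' hq' =>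
    hmax (show (p', q') ∈ D ×ˢ D from ⟨hp', hq'⟩)
  refine ⟨p, hp, q, hq, ?_⟩
  set X := cr p q with hXdef
  have hX0 : 0 ≤ X := by
    have := hX p hp p hp
    unfold cr at this
    linarith [this, mul_comm p.1 p.2]
  obtain ⟨z0, hz0, hz0max⟩ := hD.exists_isMaxOn hne (continuous_fst (X := ℝ) (Y := ℝ)).continuousOn
  set M := z0.1 with hMdef
  have hM : ∀ z ∈ D, z.1 ≤ M := fun z hz => hz0max hz
  have hM0 : 0 ≤ M := by
    have h1 := hM _ (hs _ hz0)
    simp only [Prod.fst_neg] at h1
    linarith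
  have hvol := vol_le hD hs hM
  rcases eq_or_lt_of_le hM0 with h0 | h0
  · have : volume D = 0 := by
      rw [← h0] at hvol
      simpa using hvol
    have h1 : volume.real D = 0 := by
      rw [Measure.real, this]; rfl
    rw [h1]
    have := Real.pi_pos
    positivity
  have hsl : ∀ x, 0 ≤ x → x ≤ M → (slice D x).Nonempty := by
    intro x hx hxM
    have hseg : x / M * M = x := by field_simp
    have h1 : ((1 + x / M) / 2) • z0 + ((1 - x / M) / 2) • (-z0) ∈ D := by
      apply hc hz0 (hs _ hz0)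
      · have : 0 ≤ x / M := by positivity
        linarith
      · have : x / M ≤ 1 := (div_le_one h0).mpr hxM
        linarith
      · ring
    refine ⟨(((1 + x / M) / 2) • z0 + ((1 - x / M) / 2) • (-z0)).2, ?_⟩
    have h2 : (((1 + x / M) / 2) • z0 + ((1 - x / M) / 2) • (-z0)).1 = x := by
      simp only [Prod.fst_add, Prod.smul_fst, Prod.fst_neg, smul_eq_mul]
      rw [← hMdef]
      linarith [hseg]
    show (x, _) ∈ D
    have h3 : (x, (((1 + x / M) / 2) • z0 + ((1 - x / M) / 2) • (-z0)).2) =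
        ((1 + x / M) / 2) • z0 + ((1 - x / M) / 2) • (-z0) := Prod.ext h2.symm rfl
    rw [h3]
    exact h1
  have hI : 2 * ∫⁻ x in Ioo 0 M, gs D x ≤ ENNReal.ofReal (Real.pi * X) := by
    rw [two_mul]
    nth_rewrite 1 [sub_sin h0 (gs D)]
    rw [sub_cos h0 (gs D)]
    have hmeas := measurable_gs hD
    rw [← lintegral_add_left]
    · calc ∫⁻ t in Ioo 0 (Real.pi / 2), (ENNReal.ofReal (M * Real.cos t) * gs D (M * Real.sin t) +
            ENNReal.ofReal (M * Real.sin t) * gs D (M * Real.cos t))
          ≤ ∫⁻ _ in Ioo 0 (Real.pi / 2), ENNReal.ofReal (2 * X) := by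
            apply setLIntegral_mono measurable_const
            intro t ht
            have hc1 : 0 < Real.cos t :=
              Real.cos_pos_of_mem_Ioo ⟨by linarith [ht.1, Real.pi_pos], ht.2⟩
            have hs1 : 0 < Real.sin t :=
              Real.sin_pos_of_pos_of_lt_pi ht.1 (by linarith [ht.2, Real.pi_pos])
            have a1 : M * Real.cos t ≤ M := by nlinarith [Real.cos_le_one t]
            have a2 : M * Real.sin t ≤ M := by nlinarith [Real.sin_le_one t]
            exact pointwise hD hs hX (by positivity) (by positivity)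
              (hsl _ (by positivity) a1) (hsl _ (by positivity) a2)
        _ = ENNReal.ofReal (Real.pi * X) := by
            rw [setLIntegral_const, Real.volume_Ioo, ← ENNReal.ofReal_mul (by positivity)]
            congr 1
            ring
    · apply Measurable.mul
      · fun_prop
      · exact hmeas.comp (by fun_prop)
  have hfin : volume D ≤ ENNReal.ofReal (Real.pi * X) := hvol.trans hI
  rw [Measure.real]
  have := ENNReal.toReal_mono ENNReal.ofReal_ne_top hfin
  rwa [ENNReal.toReal_ofReal (by have := Real.pi_pos; positivity)] at this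

end Pool.Agent.Work.MP_bf6e36_co.PH
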