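import Pool.Agent.Work.MP_bf6e36_co.PHDefs

/-! # Areas by slices -/

set_option autoImplicit false

namespace Pool.Agent.Work.MP_bf6e36_co.PH

open MeasureTheory Set

/-- the slice with first coordinate `r` -/
def sl (Q : Set (ℝ × ℝ)) (r : ℝ) : Set ℝ := {y | (r, y) ∈ Q}

theorem isCompact_sl {Q : Set (ℝ × ℝ)} (hQ : IsCompact Q) (r : ℝ) : IsCompact (sl Q r) := by
  have h1 : sl Q r = Prod.snd '' (Q ∩ {z | z.1 = r}) := by
    ext y
    constructor
    · intro hy
      exact ⟨(r, y), ⟨hy, rfl⟩, rfl⟩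
    · rintro ⟨⟨a, b⟩, ⟨hz, ha⟩, rfl⟩
      have ha' : a = r := ha
      subst ha'
      exact hz
  rw [h1]
  exact (hQ.inter_right (isClosed_eq continuous_fst continuous_const)).image continuous_snd

theorem convex_sl {Q : Set (ℝ × ℝ)} (hQ : Convex ℝ Q) (r : ℝ) : Convex ℝ (sl Q r) := by
  intro y hy z hz a b ha hb hab
  have h1 := hQ hy hz ha hb hab
  have h2 : a • ((r, y) : ℝ × ℝ) + b • ((r, z) : ℝ × ℝ) = (r, a • y + b • z) := by
    ext
    · simp only [Prod.smul_mk, Prod.mk_add_mk, smul_eq_mul]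
      rw [← add_mul, hab, one_mul]
    · simp
  rw [h2] at h1
  exact h1

theorem sl_eq_Icc {Q : Set (ℝ × ℝ)} (hQ : IsCompact Q) (hc : Convex ℝ Q) {r : ℝ}
    (hne : (sl Q r).Nonempty) : ∃ a b : ℝ, a ≤ b ∧ sl Q r = Icc a b := by
  have h1 : IsConnected (sl Q r) := ⟨hne, (convex_sl hc r).isPreconnected⟩
  have h2 := eq_Icc_of_connected_compact h1 (isCompact_sl hQ r)
  refine ⟨_, _, ?_, h2⟩
  rw [h2] at hne
  exact nonempty_Icc.1 hne

theorem measurable_sl {Q : Set (ℝ × ℝ)} (hQ : IsCompact Q) :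
    Measurable fun r => volume.real (sl Q r) := by
  have h1 : Measurable fun r => (volume (Prod.mk r ⁻¹' Q) : ENNReal) :=
    measurable_measure_prodMk_left hQ.measurableSet
  exact h1.ennreal_toReal

theorem real_sl_le {Q : Set (ℝ × ℝ)} (hQ : IsCompact Q) :
    ∃ C : ℝ, ∀ r, volume.real (sl Q r) ≤ C := by
  have h1 : IsCompact (Prod.snd '' Q) := hQ.image continuous_snd
  refine ⟨volume.real (Prod.snd '' Q), fun r => ?_⟩
  exact measureReal_mono (fun y hy => ⟨(r, y), hy, rfl⟩) h1.measure_lt_top.ne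

theorem intervalIntegrable_sl {Q : Set (ℝ × ℝ)} (hQ : IsCompact Q) (s t : ℝ) :
    IntervalIntegrable (fun r => volume.real (sl Q r)) volume s t := by
  obtain ⟨C, hC⟩ := real_sl_le hQ
  rw [intervalIntegrable_iff]
  refine Measure.integrableOn_of_bounded (M := C) ?_ (measurable_sl hQ).aestronglyMeasurable ?_
  · rw [uIoc]
    exact measure_Ioc_lt_top.ne
  · refine Filter.Eventually.of_forall fun r => ?_
    rw [Real.norm_eq_abs, abs_of_nonneg measureReal_nonneg]
    exact hC r

/-- the area by slices -/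
theorem real_eq_integral {Q : Set (ℝ × ℝ)} (hQ : IsCompact Q) {s t : ℝ} (hst : s ≤ t)
    (h : ∀ z ∈ Q, z.1 ∈ Icc s t) : volume.real Q = ∫ r in s..t, volume.real (sl Q r) := by
  have h1 : volume Q = ∫⁻ r, volume (sl Q r) := by
    rw [Measure.volume_eq_prod, Measure.prod_apply hQ.measurableSet]
    rfl
  have h2 : ∀ r, volume (sl Q r) = ENNReal.ofReal (volume.real (sl Q r)) := fun r => by
    rw [measureReal_def, ENNReal.ofReal_toReal (isCompact_sl hQ r).measure_lt_top.ne]
  have h3 : ∫⁻ r, volume (sl Q r) = ∫⁻ r in Icc s t, volume (sl Q r) := by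
    rw [← lintegral_indicator measurableSet_Icc]
    refine lintegral_congr fun r => ?_
    by_cases hr : r ∈ Icc s t
    · rw [indicator_of_mem hr]
    · rw [indicator_of_notMem hr]
      have : sl Q r = ∅ := by
        ext y
        simp only [sl, mem_ofPred_eq, mem_empty_iff_false, iff_false]
        intro hy
        exact hr (h _ hy)
      rw [this, measure_empty]
  have hint : IntegrableOn (fun r => volume.real (sl Q r)) (Icc s t) := by
    rw [integrableOn_Icc_iff_integrableOn_Ioc]
    exact (intervalIntegrable_iff_integrableOn_Ioc_of_le hst).1 (intervalIntegrable_sl hQ s t)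
  rw [measureReal_def, h1, h3, intervalIntegral.integral_of_le hst,
    ← integral_Icc_eq_integral_Ioc]
  simp only [h2]
  rw [← ofReal_integral_eq_lintegral_ofReal hint
    (Filter.Eventually.of_forall fun r => measureReal_nonneg), ENNReal.toReal_ofReal]
  exact integral_nonneg fun r => measureReal_nonneg

/-- midpoint rule -/
theorem integral_sl_le {Q : Set (ℝ × ℝ)} (hQ : IsCompact Q) (hc : Convex ℝ Q) {s t : ℝ}
    (hst : s ≤ t) (hne : ∀ r ∈ Icc s t, (sl Q r).Nonempty) :
    ∫ r in s..t, volume.real (sl Q r) ≤ (t - s) * volume.real (sl Q ((s + t) / 2)) := by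
  set D : ℝ → ℝ := fun r => volume.real (sl Q r) with hD
  have h1 : ∀ r ∈ Icc s t, D r + D (s + t - r) ≤ 2 * D ((s + t) / 2) := by
    intro r hr
    have hr' : s + t - r ∈ Icc s t := ⟨by linarith [hr.2], by linarith [hr.1]⟩
    obtain ⟨a, b, hab, h2⟩ := sl_eq_Icc hQ hc (hne r hr)
    obtain ⟨a', b', hab', h3⟩ := sl_eq_Icc hQ hc (hne _ hr')
    have ha : a ∈ sl Q r := h2 ▸ left_mem_Icc.2 hab
    have hb : b ∈ sl Q r := h2 ▸ right_mem_Icc.2 hab
    have ha' : a' ∈ sl Q (s + t - r) := h3 ▸ left_mem_Icc.2 hab'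
    have hb' : b' ∈ sl Q (s + t - r) := h3 ▸ right_mem_Icc.2 hab'
    have hmid : ∀ u ∈ sl Q r, ∀ v ∈ sl Q (s + t - r), (u + v) / 2 ∈ sl Q ((s + t) / 2) := by
      intro u hu v hv
      have h4 := hc hu hv (by norm_num : (0 : ℝ) ≤ 1 / 2) (by norm_num : (0 : ℝ) ≤ 1 / 2)
        (by norm_num)
      have h5 : (1 / 2 : ℝ) • ((r, u) : ℝ × ℝ) + (1 / 2 : ℝ) • ((s + t - r, v) : ℝ × ℝ) =
          ((s + t) / 2, (u + v) / 2) := by
        ext
        · simp only [Prod.smul_mk, Prod.mk_add_mk, smul_eq_mul]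
          ring
        · simp only [Prod.smul_mk, Prod.mk_add_mk, smul_eq_mul]
          ring
      rw [h5] at h4
      exact h4
    have h6 : Icc ((a + a') / 2) ((b + b') / 2) ⊆ sl Q ((s + t) / 2) :=
      (convex_sl hc _).ordConnected.out (hmid a ha a' ha') (hmid b hb b' hb')
    have h7 : volume.real (Icc ((a + a') / 2) ((b + b') / 2)) ≤ D ((s + t) / 2) :=
      measureReal_mono h6 (isCompact_sl hQ _).measure_lt_top.ne
    rw [Real.volume_real_Icc_of_le (by linarith)] at h7
    have h8 : D r = b - a := by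
      simp only [hD]
      rw [h2, Real.volume_real_Icc_of_le hab]
    have h9 : D (s + t - r) = b' - a' := by
      simp only [hD]
      rw [h3, Real.volume_real_Icc_of_le hab']
    rw [h8, h9]
    linarith
  have h2 : ∫ r in s..t, D (s + t - r) = ∫ r in s..t, D r := by
    rw [intervalIntegral.integral_comp_sub_left]
    congr 1
    · ring
    · ring
  have hI := intervalIntegrable_sl hQ s t
  have hI' : IntervalIntegrable (fun r => D (s + t - r)) volume s t := by
    have := (intervalIntegrable_sl hQ (s + t - s) (s + t - t)).comp_sub_left (s + t)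
    simpa using this
  have h3 : ∫ r in s..t, (D r + D (s + t - r)) ≤ ∫ _r in s..t, 2 * D ((s + t) / 2) :=
    intervalIntegral.integral_mono_on hst (hI.add hI') intervalIntegrable_const h1
  rw [intervalIntegral.integral_add hI hI', h2, intervalIntegral.integral_const, smul_eq_mul] at h3
  linarith

/-- a trapezoid in `Q` -/
theorem trapezoid_le {Q : Set (ℝ × ℝ)} (hQ : IsCompact Q) (hc : Convex ℝ Q) {s t p q u w : ℝ}
    (hst : s ≤ t) (hu : 0 ≤ u) (hw : 0 ≤ w) (h1 : (s, p) ∈ Q) (h2 : (s, p + u) ∈ Q)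
    (h3 : (t, q) ∈ Q) (h4 : (t, q + w) ∈ Q) :
    (u + w) / 2 * (t - s) ≤ ∫ r in s..t, volume.real (sl Q r) := by
  rcases hst.eq_or_lt with h0 | h0
  · subst h0
    simp
  have hts : 0 < t - s := by linarith
  have h5 : ∀ r ∈ Icc s t, u + (r - s) * ((w - u) / (t - s)) ≤ volume.real (sl Q r) := by
    intro r hr
    set l : ℝ := (r - s) / (t - s) with hl
    have hl0 : 0 ≤ l := div_nonneg (by linarith [hr.1]) hts.le
    have hl1 : l ≤ 1 := by
      rw [hl, div_le_one hts]
      linarith [hr.2]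
    have hls : l * (t - s) = r - s := div_mul_cancel₀ _ hts.ne'
    have hseg : ∀ y z, (s, y) ∈ Q → (t, z) ∈ Q → (1 - l) * y + l * z ∈ sl Q r := by
      intro y z hy hz
      have h6 := hc hy hz (by linarith : 0 ≤ 1 - l) hl0 (by ring)
      have h7 : (1 - l) • ((s, y) : ℝ × ℝ) + l • ((t, z) : ℝ × ℝ) = (r, (1 - l) * y + l * z) := by
        ext
        · simp only [Prod.smul_mk, Prod.mk_add_mk, smul_eq_mul]
          linarith
        · simp only [Prod.smul_mk, Prod.mk_add_mk, smul_eq_mul]
      rw [h7] at h6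
      exact h6
    have h8 : Icc ((1 - l) * p + l * q) ((1 - l) * (p + u) + l * (q + w)) ⊆ sl Q r :=
      (convex_sl hc _).ordConnected.out (hseg _ _ h1 h3) (hseg _ _ h2 h4)
    have h9 := measureReal_mono (μ := volume) h8 (isCompact_sl hQ _).measure_lt_top.ne
    have h10 : 0 ≤ (1 - l) * u := mul_nonneg (by linarith) hu
    have h11 : 0 ≤ l * w := mul_nonneg hl0 hw
    rw [Real.volume_real_Icc_of_le (by nlinarith)] at h9
    have h12 : (r - s) * ((w - u) / (t - s)) = l * (w - u) := by
      rw [hl]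
      ring
    rw [h12]
    linarith
  have h6 := intervalIntegral.integral_mono_on hst
    (by apply Continuous.intervalIntegrable; fun_prop) (intervalIntegrable_sl hQ s t) h5
  refine le_trans (le_of_eq ?_) h6
  rw [intervalIntegral.integral_add (by simp) (by apply Continuous.intervalIntegrable; fun_prop),
    intervalIntegral.integral_mul_const, intervalIntegral.integral_sub (by simp) (by simp)]
  simp only [intervalIntegral.integral_const, integral_id, smul_eq_mul]
  field_simp
  ring

end Pool.Agent.Work.MP_bf6e36_co.PH
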